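import Pool.Agent.Helper30.GA.Defs

/-!
# Normal form of simple words

A positive word in which any two strands cross at most once acts like the word of a code.
-/

set_option autoImplicit false

namespace Pool.Agent.Helper12.GA

open Pool.Agent.Helper69.LZ Pool.Agent.Helper30.GA

/-- the labels of the strands after a word -/
def prm (p : ℕ → ℕ) (w : List ℕ) : ℕ → ℕ := w.foldl swp p

@[simp] theorem prm_nil (p : ℕ → ℕ) : prm p [] = p := rfl

@[simp] theorem prm_cons (p : ℕ → ℕ) (a : ℕ) (w : List ℕ) : prm p (a :: w) = prm (swp p a) w := rfl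

theorem prm_append (p : ℕ → ℕ) (u v : List ℕ) : prm p (u ++ v) = prm (prm p u) v := by
  unfold prm
  rw [List.foldl_append]

theorem once_append (p : ℕ → ℕ) (u v : List ℕ) : Once p (u ++ v) ↔ Once p u ∧ Once (prm p u) v := by
  induction u generalizing p with
  | nil => simp [Once]
  | cons a u ih =>
    rw [List.cons_append]
    change (p a < p (a + 1) ∧ Once (swp p a) (u ++ v)) ↔ (p a < p (a + 1) ∧ Once (swp p a) u) ∧ _
    rw [ih, prm_cons, and_assoc]

/-- The words act in the same way on vectors and on labels. -/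
structure E (u v : List ℕ) : Prop where
  run : ∀ (t : ℂ) (L : ℕ → ℂ), run t u L = run t v L
  prm : ∀ p, prm p u = prm p v
  once : ∀ p, Once p u ↔ Once p v

theorem E.refl (u : List ℕ) : E u u := ⟨fun _ _ => rfl, fun _ => rfl, fun _ => Iff.rfl⟩

theorem E.symm {u v : List ℕ} (h : E u v) : E v u :=
  ⟨fun t L => (h.run t L).symm, fun p => (h.prm p).symm, fun p => (h.once p).symm⟩

theorem E.trans {u v w : List ℕ} (h : E u v) (h' : E v w) : E u w :=
  ⟨fun t L => (h.run t L).trans (h'.run t L), fun p => (h.prm p).trans (h'.prm p),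
    fun p => (h.once p).trans (h'.once p)⟩

theorem E.append {u u' v v' : List ℕ} (h : E u u') (h' : E v v') : E (u ++ v) (u' ++ v') := by
  refine ⟨fun t L => ?_, fun p => ?_, fun p => ?_⟩
  · rw [run_append, run_append, h.run, h'.run]
  · rw [prm_append, prm_append, h.prm, h'.prm]
  · rw [once_append, once_append, h.once, h.prm, h'.once]

/-- far commutation -/
theorem E.comm {a b : ℕ} (h : a + 2 ≤ b) : E [a, b] [b, a] := by
  refine ⟨fun t L => ?_, fun p => ?_, fun p => ?_⟩
  · funext j
    simp only [run_cons, run_nil, sg, Function.update_apply]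
    split_ifs <;> first | rfl | omega
  · funext j
    simp only [prm_cons, prm_nil, swp]
    split_ifs <;> first | rfl | omega
  · simp only [Once, swp, and_true]
    have e1 : ¬ b = a := by omega
    have e2 : ¬ b = a + 1 := by omega
    have e3 : ¬ b + 1 = a := by omega
    have e4 : ¬ b + 1 = a + 1 := by omega
    have e5 : ¬ a = b := by omega
    have e6 : ¬ a = b + 1 := by omega
    have e7 : ¬ a + 1 = b := by omega
    have e8 : ¬ a + 1 = b + 1 := by omega
    simp only [e1, e2, e3, e4, e5, e6, e7, e8, if_false]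
    exact and_comm

/-- braid relation -/
theorem E.braid (a : ℕ) : E [a, a + 1, a] [a + 1, a, a + 1] := by
  refine ⟨fun t L => ?_, fun p => ?_, fun p => ?_⟩
  · funext j
    have e1 : a + 1 - 1 = a := by omega
    have e2 : a + 1 + 1 - 1 = a + 1 := by omega
    have n1 : ¬ (a + 1 + 1 = a + 1) := by omega
    have n2 : ¬ (a + 1 = a + 1 + 1) := by omega
    have n3 : ¬ (a + 1 + 1 + 1 = a + 1) := by omega
    have n4 : ¬ (a + 1 + 1 + 1 = a + 1 + 1) := by omega
    have n5 : ¬ (a = a + 1) := by omega
    have n6 : ¬ (a = a + 1 + 1) := by omega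
    simp only [run_cons, run_nil, sg, Function.update_apply, e1, e2, n1, n2, n3, n4, n5, n6, if_true, if_false]
    by_cases h1 : j = a + 1
    · simp only [h1, n2, if_true, if_false]
      ring
    · by_cases h2 : j = a + 1 + 1
      · simp only [h2, n1, if_true, if_false]
        ring
      · simp only [h1, h2, if_false]
  · funext j
    simp only [prm_cons, prm_nil, swp]
    split_ifs <;> first | rfl | omega
  · simp only [Once, swp, and_true]
    have n1 : ¬ (a + 1 + 1 = a + 1) := by omega
    have n2 : ¬ (a + 1 = a + 1 + 1) := by omega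
    have n5 : ¬ (a = a + 1) := by omega
    have n6 : ¬ (a = a + 1 + 1) := by omega
    have n7 : ¬ (a + 1 = a) := by omega
    have n8 : ¬ (a + 1 + 1 = a) := by omega
    simp only [n1, n2, n5, n6, n7, n8, if_true, if_false]
    constructor
    · rintro ⟨h1, h2, h3⟩
      exact ⟨h3, h2, h1⟩
    · rintro ⟨h1, h2, h3⟩
      exact ⟨h3, h2, h1⟩

/-- A letter commutes with a list of far letters. -/
theorem E.comm_list {a : ℕ} {v : List ℕ} (h : ∀ b ∈ v, a + 2 ≤ b ∨ b + 2 ≤ a) : E (v ++ [a]) ([a] ++ v) := by
  induction v with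
  | nil => exact E.refl _
  | cons b v ih =>
    have h1 : E ((b :: v) ++ [a]) ([b] ++ ([a] ++ v)) :=
      (E.refl [b]).append (ih fun x hx => h x (List.mem_cons_of_mem _ hx))
    have h2 : E ([b] ++ ([a] ++ v)) ([a, b] ++ v) := by
      have h3 : E [b, a] [a, b] := by
        rcases h b (by simp) with hb | hb
        · exact (E.comm hb).symm
        · exact E.comm hb
      exact h3.append (E.refl v)
    exact h1.trans h2

theorem mem_vb {k m b : ℕ} (h : b ∈ vb k m) : k < b + m ∧ b ≤ k ∨ b = 0 ∧ k < m := by
  unfold vb at h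
  rw [List.mem_map] at h
  obtain ⟨i, hi, rfl⟩ := h
  rw [List.mem_range] at hi
  omega

/-- A letter inside of a block. -/
theorem vb_inside {k m : ℕ} (hm : m ≤ k + 1) (i : ℕ) (hi : i + 1 < m) :
    E (vb k m ++ [k - i]) ([k - i - 1] ++ vb k m) := by
  induction m with
  | zero => omega
  | succ m ih =>
    rcases Nat.lt_or_ge (i + 1) m with h | h
    · -- `k - m` commutes with `k - i`
      have h1 : E (vb k (m + 1) ++ [k - i]) (vb k m ++ [k - i] ++ [k - m]) := by
        rw [vb_succ, List.append_assoc, List.append_assoc]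
        exact (E.refl _).append (E.comm (by omega))
      have h2 : E (vb k m ++ [k - i] ++ [k - m]) ([k - i - 1] ++ vb k m ++ [k - m]) :=
        (ih (by omega) h).append (E.refl _)
      rw [vb_succ]
      rw [vb_succ] at h1
      rw [List.append_assoc] at h2
      rw [List.append_assoc] at h2
      rw [← List.append_assoc] at h2
      exact h1.trans h2
    · have hi' : m = i + 1 := by omega
      subst hi'
      have e1 : vb k (i + 1) = vb k i ++ [k - i] := vb_succ k i
      have e2 : k - i = k - (i + 1) + 1 := by omega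
      have e3 : k - i - 1 = k - (i + 1) := by omega
      obtain ⟨c, hc⟩ : ∃ c, c = k - (i + 1) := ⟨_, rfl⟩
      rw [vb_succ k (i + 1), e1, e3, e2, ← hc]
      have h1 : E (vb k i ++ [c + 1] ++ [c] ++ [c + 1]) (vb k i ++ ([c] ++ [c + 1, c])) := by
        have : vb k i ++ [c + 1] ++ [c] ++ [c + 1] = vb k i ++ [c + 1, c, c + 1] := by simp
        rw [this]
        exact (E.refl _).append (E.braid c).symm
      have h2 : E (vb k i ++ ([c] ++ [c + 1, c])) ([c] ++ (vb k i ++ [c + 1] ++ [c])) := by
        have e4 : vb k i ++ ([c] ++ [c + 1, c]) = (vb k i ++ [c]) ++ [c + 1, c] := by simp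
        have e5 : [c] ++ (vb k i ++ [c + 1] ++ [c]) = ([c] ++ vb k i) ++ [c + 1, c] := by simp
        rw [e4, e5]
        refine (E.comm_list fun b hb => Or.inl ?_).append (E.refl _)
        rcases mem_vb hb with h | h <;> omega
      exact h1.trans h2

/-- The lowest letter of a block cannot follow the block. -/
theorem not_once {p : ℕ → ℕ} {u : List ℕ} {a : ℕ} : ¬ Once p (u ++ [a] ++ [a]) := by
  intro h
  rw [once_append, once_append] at h
  obtain ⟨⟨-, h1, -⟩, h2, -⟩ := h
  rw [prm_append] at h2
  simp only [prm_cons, prm_nil, swp, if_true] at h2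
  have e : ¬ (a + 1 = a) := by omega
  simp only [e, if_false] at h2
  omega

theorem sw_congr {n : ℕ} {c c' : ℕ → ℕ} (h : ∀ k < n, c k = c' k) : sw n c = sw n c' := by
  induction n with
  | zero => rfl
  | succ n ih =>
    rw [sw_succ, sw_succ, ih fun k hk => h k (by omega), h n (by omega)]

theorem step (n : ℕ) : ∀ (c : ℕ → ℕ), (∀ k, c k ≤ k + 1) → ∀ (p : ℕ → ℕ) (a : ℕ), a < n →
    Once p (sw n c ++ [a]) → ∃ c' : ℕ → ℕ, (∀ k, c' k ≤ k + 1) ∧ E (sw n c ++ [a]) (sw n c') := by
  induction n with
  | zero => intro c _ p a ha; omega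
  | succ n ih =>
    intro c hc p a ha h
    have hcn := hc n
    -- the case in which a smaller letter passes the block
    have pass : ∀ b, b < n → E (vb n (c n) ++ [a]) ([b] ++ vb n (c n)) →
        ∃ c' : ℕ → ℕ, (∀ k, c' k ≤ k + 1) ∧ E (sw (n + 1) c ++ [a]) (sw (n + 1) c') := by
      intro b hb hE
      have h1 : E (sw (n + 1) c ++ [a]) (sw n c ++ [b] ++ vb n (c n)) := by
        rw [sw_succ, List.append_assoc, List.append_assoc]
        exact (E.refl _).append hE
      have h2 : Once p (sw n c ++ [b]) := by
        have := (h1.once p).1 h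
        rw [once_append] at this
        exact this.1
      obtain ⟨c', hc', hE'⟩ := ih c hc p b hb h2
      refine ⟨fun k => if k = n then c n else c' k, fun k => ?_, ?_⟩
      · dsimp only
        split_ifs with hk
        · rw [hk]
          exact hcn
        · exact hc' k
      · refine h1.trans ?_
        rw [sw_succ]
        have e1 : sw n (fun k => if k = n then c n else c' k) = sw n c' :=
          sw_congr fun k hk => by simp [Nat.ne_of_lt hk]
        have e2 : (if n = n then c n else c' n) = c n := if_pos rfl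
        rw [e1, e2]
        exact hE'.append (E.refl _)
    rcases lt_trichotomy (a + c n) n with h1 | h1 | h1
    · refine pass a (by omega) (E.comm_list fun b hb => Or.inl ?_)
      rcases mem_vb hb with h | h <;> omega
    · refine ⟨fun k => if k = n then c n + 1 else c k, fun k => ?_, ?_⟩
      · dsimp only
        split_ifs with hk
        · rw [hk]
          omega
        · exact hc k
      · rw [sw_succ, sw_succ]
        have e1 : sw n (fun k => if k = n then c n + 1 else c k) = sw n c :=
          sw_congr fun k hk => by simp [Nat.ne_of_lt hk]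
        have e2 : (if n = n then c n + 1 else c n) = c n + 1 := if_pos rfl
        rw [e1, e2, vb_succ, show n - c n = a by omega, List.append_assoc]
        exact E.refl _
    · rcases Nat.lt_or_ge (n + 1) (a + c n) with h2 | h2
      · have e : n - (n - a) = a := by omega
        have h3 := vb_inside (k := n) (m := c n) hcn (n - a) (by omega)
        rw [e] at h3
        exact pass (a - 1) (by omega) h3
      · exfalso
        obtain ⟨m, hm⟩ : ∃ m, c n = m + 1 := ⟨c n - 1, by omega⟩
        rw [sw_succ, hm, vb_succ, show n - m = a by omega, ← List.append_assoc] at h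
        exact not_once h

theorem sw_const_zero (n : ℕ) : sw n (fun _ => 0) = [] := by
  induction n with
  | zero => rfl
  | succ n ih => rw [sw_succ, ih]; rfl

theorem normal_E {n : ℕ} {w : List ℕ} (hw : ∀ a ∈ w, a < n) (h : Once id w) :
    ∃ c : ℕ → ℕ, (∀ k, c k ≤ k + 1) ∧ E w (sw n c) := by
  induction w using List.reverseRecOn with
  | nil => exact ⟨fun _ => 0, fun k => Nat.zero_le _, by rw [sw_const_zero]; exact E.refl _⟩
  | append_singleton w a ih =>
    rw [once_append] at h
    obtain ⟨c, hc, hE⟩ := ih (fun x hx => hw x (by simp [hx])) h.1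
    have h1 : E (w ++ [a]) (sw n c ++ [a]) := hE.append (E.refl _)
    obtain ⟨c', hc', hE'⟩ := step n c hc id a (hw a (by simp))
      ((h1.once id).1 ((once_append _ _ _).2 h))
    exact ⟨c', hc', h1.trans hE'⟩

/-- **Normal form.** -/
theorem normal {n : ℕ} {w : List ℕ} (hw : ∀ a ∈ w, a < n) (h : Once id w) :
    ∃ c : ℕ → ℕ, (∀ k, c k ≤ k + 1) ∧ ∀ (t : ℂ) (L : ℕ → ℂ), run t w L = run t (sw n c) L := by
  obtain ⟨c, hc, hE⟩ := normal_E hw h
  exact ⟨c, hc, hE.run⟩

end Pool.Agent.Helper12.GA
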